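import Pool.Agent.SCT.StmtsC

/-!
# Row FLB of squad SCT: a dominant point of a hyperplane
-/

set_option autoImplicit false

namespace Pool.Agent.SCT.H92

open MvPolynomial

/-- a field generated by `n` elements is the field of rational functions in `n` variables if its
transcendence degree is at least `n` -/
theorem equiv_of_gen (k Ω : Type) [Field k] [Field Ω] [Algebra k Ω] (n : ℕ) (v : Fin n → Ω)
    (h : ∀ d : ℕ, Algebra.trdeg k (IntermediateField.adjoin k (Set.range v)) ≤ d → n ≤ d) :
    Nonempty (IntermediateField.adjoin k (Set.range v) ≃ₐ[k]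
      FractionRing (MvPolynomial (Fin n) k)) := by
  classical
  obtain ⟨L, hL⟩ : ∃ L : IntermediateField k Ω, L = IntermediateField.adjoin k (Set.range v) :=
    ⟨_, rfl⟩
  have hv : ∀ l, v l ∈ L := fun l => hL ▸ IntermediateField.subset_adjoin _ _ ⟨l, rfl⟩
  obtain ⟨x, hx⟩ : ∃ x : Fin n → L, ∀ l, (x l : Ω) = v l := ⟨fun l => ⟨v l, hv l⟩, fun _ => rfl⟩
  have htop : IntermediateField.adjoin k (Set.range x) = ⊤ := by
    have h1 : (IntermediateField.adjoin k (Set.range x)).map L.val = L := by
      rw [IntermediateField.adjoin_map, ← Set.range_comp]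
      conv_rhs => rw [hL]
      congr 2
      funext l
      exact hx l
    rw [eq_top_iff]
    intro a _
    have h2 : (a : Ω) ∈ (IntermediateField.adjoin k (Set.range x)).map L.val := by
      rw [h1]; exact a.2
    obtain ⟨b, hb, hba⟩ := h2
    have h3 : b = a := Subtype.ext hba
    rw [← h3]
    exact hb
  have halg : Algebra.IsAlgebraic (Algebra.adjoin k (Set.range x)) L := by
    refine ⟨fun a => ?_⟩
    have h1 : a ∈ IntermediateField.adjoin k (Set.range x) := by rw [htop]; trivial
    rw [IntermediateField.mem_adjoin_iff_div] at h1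
    obtain ⟨r, hr, s, hs, rfl⟩ := h1
    rw [div_eq_mul_inv]
    have h2 : IsAlgebraic (Algebra.adjoin k (Set.range x)) r :=
      isAlgebraic_algebraMap (⟨r, hr⟩ : Algebra.adjoin k (Set.range x))
    have h3 : IsAlgebraic (Algebra.adjoin k (Set.range x)) s :=
      isAlgebraic_algebraMap (⟨s, hs⟩ : Algebra.adjoin k (Set.range x))
    exact h2.mul h3.inv
  have hle : Algebra.trdeg k L ≤ Cardinal.mk (Set.range x) :=
    Algebra.IsAlgebraic.trdeg_le_cardinalMk k (Set.range x)
  have hfin : Algebra.trdeg k L < Cardinal.aleph0 :=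
    hle.trans_lt (Cardinal.mk_lt_aleph0_iff.2 (Set.finite_range x).to_subtype)
  obtain ⟨d, hd⟩ := Cardinal.lt_aleph0.1 hfin
  have hnd : n ≤ d := h d (by rw [← hL, hd])
  have hcard : Cardinal.mk (Fin n) ≤ Algebra.trdeg k L := by
    rw [hd, Cardinal.mk_fin]
    exact_mod_cast hnd
  have hbasis : IsTranscendenceBasis k x :=
    Algebra.IsAlgebraic.isTranscendenceBasis_of_le_trdeg_of_finite k x hcard
  have hind : AlgebraicIndependent k v := by
    have h1 := hbasis.1.map' (f := L.val) L.val.injective
    have h2 : (L.val ∘ x : Fin n → Ω) = v := by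
      funext l
      exact hx l
    rwa [h2] at h1
  exact ⟨hind.aevalEquivField.symm⟩

/-- **FLB** -/
theorem flb : FlbStmt := by
  classical
  intro k Ω _ _ _ n w c hw hc hsum hdim
  obtain ⟨i, hi⟩ : ∃ i, c i ≠ 0 := by
    by_contra h
    push Not at h
    exact hc (funext h)
  have hi' : algebraMap k Ω (c i) ≠ 0 := by
    rwa [Ne, map_eq_zero]
  obtain ⟨j, hji, hj⟩ : ∃ j, j ≠ i ∧ w j ≠ 0 := by
    by_contra h
    push Not at h
    have h1 : ∑ l, algebraMap k Ω (c l) * w l = algebraMap k Ω (c i) * w i := by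
      refine Finset.sum_eq_single i (fun l _ hl => ?_) (fun h => absurd (Finset.mem_univ _) h)
      rw [h l hl, mul_zero]
    rw [h1] at hsum
    have h2 : w i = 0 := (mul_eq_zero.1 hsum).resolve_left hi'
    apply hw
    funext l
    by_cases hl : l = i
    · rw [hl, h2]; rfl
    · exact h l hl
  have hcard : Fintype.card {l : Fin (n + 2) // l ≠ i ∧ l ≠ j} = n := by
    rw [Fintype.card_subtype]
    have h1 : (Finset.univ.filter fun l : Fin (n + 2) => l ≠ i ∧ l ≠ j) =
        (Finset.univ.erase i).erase j := by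
      ext l
      simp [and_comm]
    rw [h1, Finset.card_erase_of_mem (by simp [hji]), Finset.card_erase_of_mem (by simp),
      Finset.card_univ, Fintype.card_fin]
    rfl
  obtain ⟨σ⟩ : Nonempty (Fin n ≃ {l : Fin (n + 2) // l ≠ i ∧ l ≠ j}) :=
    ⟨(Fintype.equivFinOfCardEq hcard).symm⟩
  obtain ⟨v, hv⟩ : ∃ v : Fin n → Ω, ∀ l, v l = w (σ l : Fin (n + 2)) / w j :=
    ⟨fun l => w (σ l : Fin (n + 2)) / w j, fun _ => rfl⟩
  have hmem : ∀ l, l ≠ i → w l / w j ∈ IntermediateField.adjoin k (Set.range v) := by
    intro l hl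
    by_cases hlj : l = j
    · rw [hlj, div_self hj]
      exact one_mem _
    · refine IntermediateField.subset_adjoin _ _ ⟨σ.symm ⟨l, hl, hlj⟩, ?_⟩
      rw [hv, Equiv.apply_symm_apply]
  have hrat : rat k w = IntermediateField.adjoin k (Set.range v) := by
    rw [rat_eq hj]
    apply le_antisymm
    · rw [IntermediateField.adjoin_le_iff]
      rintro _ ⟨l, rfl⟩
      change w l / w j ∈ IntermediateField.adjoin k (Set.range v)
      by_cases hl : l = i
      · have h1 : algebraMap k Ω (c i) * (w i / w j) =
            - ∑ l ∈ Finset.univ.erase i, algebraMap k Ω (c l) * (w l / w j) := by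
          have h2 := Finset.add_sum_erase Finset.univ
            (fun l => algebraMap k Ω (c l) * (w l / w j)) (Finset.mem_univ i)
          have h3 : ∑ l, algebraMap k Ω (c l) * (w l / w j) = 0 := by
            have h4 : ∀ l, algebraMap k Ω (c l) * (w l / w j) =
                (algebraMap k Ω (c l) * w l) / w j := fun l => (mul_div_assoc _ _ _).symm
            rw [Finset.sum_congr rfl (fun l _ => h4 l), ← Finset.sum_div, hsum, zero_div]
          rw [h3] at h2
          exact eq_neg_of_add_eq_zero_left h2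
        have h5 : w l / w j = algebraMap k Ω (c i)⁻¹ *
            (- ∑ l ∈ Finset.univ.erase i, algebraMap k Ω (c l) * (w l / w j)) := by
          rw [← h1, hl, ← mul_assoc, ← map_mul, inv_mul_cancel₀ hi, map_one, one_mul]
        rw [h5]
        refine mul_mem (IntermediateField.algebraMap_mem _ _) (neg_mem (sum_mem fun l hl => ?_))
        exact mul_mem (IntermediateField.algebraMap_mem _ _) (hmem l (Finset.ne_of_mem_erase hl))
      · exact hmem l hl
    · rw [IntermediateField.adjoin_le_iff]
      rintro _ ⟨l, rfl⟩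
      rw [hv]
      exact IntermediateField.subset_adjoin _ _ ⟨_, rfl⟩
  rw [hrat]
  refine equiv_of_gen k Ω n v (fun d hd => hdim d ?_)
  unfold DimLe
  rw [hrat]
  exact hd

end Pool.Agent.SCT.H92
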